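import Pool.Agent.MP_918b6a_al.Core
import Pool.Agent.MP_918b6a_al.Quot

set_option autoImplicit false

namespace Pool.Agent.Results.MP_918b6a_al.ConvexNormalCounterexample

/-- There is a nontrivial lattice-ordered group whose only `ℓ`-ideals are `{e}` and the whole group, with a convex normal subgroup
different from `{e}` and from the whole group. -/
theorem result :
    ∃ (G : Type) (_ : Group G) (_ : Lattice G), (∀ a b c d : G, a ≤ b → c * a * d ≤ c * b * d) ∧ Nontrivial G ∧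
      (∀ H : Subgroup G, H.Normal →
          (∀ a b g : G, a ∈ H → b ∈ H → a ≤ g → g ≤ b → g ∈ H) →
          (∀ a b : G, a ∈ H → b ∈ H → a ⊔ b ∈ H ∧ a ⊓ b ∈ H) →
          H = ⊥ ∨ H = ⊤) ∧
      ∃ N : Subgroup G, N.Normal ∧
        (∀ a b g : G, a ∈ N → b ∈ N → a ≤ g → g ≤ b → g ∈ N) ∧ N ≠ ⊥ ∧ N ≠ ⊤ := by
  obtain ⟨G, i1, i2, i3, i4, hsimple, H, hn, hc, hb, ht⟩ :=
    Pool.Agent.MP_918b6a_al.main_quot (G := Pool.Agent.MP_918b6a_al.GG)
      Pool.Agent.MP_918b6a_al.NN Pool.Agent.MP_918b6a_al.NN_normal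
      Pool.Agent.MP_918b6a_al.nn Pool.Agent.MP_918b6a_al.uu
      Pool.Agent.MP_918b6a_al.nn_mem Pool.Agent.MP_918b6a_al.nn_ne_one
      Pool.Agent.MP_918b6a_al.uu_le Pool.Agent.MP_918b6a_al.one_le_uu
      Pool.Agent.MP_918b6a_al.le_conj
      (fun n hn => ⟨_, Pool.Agent.MP_918b6a_al.balanced n hn⟩)
  refine ⟨G, i1, i2, ?_, ?_, hsimple, H, hn, hc, hb, ht⟩
  · intro a b c d hab
    exact mul_le_mul_left (mul_le_mul_right hab c) d
  · obtain ⟨a, ha⟩ := Subgroup.ne_bot_iff_exists_ne_one.1 hb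
    exact ⟨⟨a.1, 1, fun h => ha (Subtype.ext h)⟩⟩

end Pool.Agent.Results.MP_918b6a_al.ConvexNormalCounterexample
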